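import Pool.Agent.LPV.Stmts

/-!
Row CTV of the squad LPV (problem MP_37fa12_co): the contradiction (twin of Helper11_LPK/CTR.lean).
-/

set_option autoImplicit false

open scoped RealInnerProductSpace

namespace Pool.Agent.LPV.H11

open Pool.Agent.LPK

theorem pt_zero {n : ℕ} (b : Fin n → V n) : pt b 0 = 0 := by
  unfold pt
  exact Finset.sum_eq_zero fun i _ => by rw [Pi.zero_apply, Int.cast_zero, zero_smul]

theorem G_zero {n : ℕ} : G (0 : V n) = 1 := by
  unfold G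
  rw [norm_zero]
  norm_num

/-- **Row CTV**. -/
theorem ctv (_h1 : DuaStmt) (h2 : SplStmt) (h3 : FsvStmt) (h4 : TovStmt) (h5 : LivStmt) (h6 : PavStmt) :
    CtvStmt := by
  intro n κ D μ ν hC b b' hD hb hb'
  obtain ⟨s1, s2, s3, s4, s5⟩ := h3 n κ D b b' hC.one hC.ev hD hC.hz hC.hw
  have ht := h4 n κ D b b' hC.one hC.ev hD hC.evP hC.evQ hC.evg hC.hz hC.hw
  obtain ⟨l1, l2⟩ := h5 n κ D μ ν hC b b' hD hb hb'
  obtain ⟨p1, p2, p3⟩ := h6 n κ D μ ν hC b b' hD hb hb'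
  refine h2 n (gLL D b) (gSS D b') (gLS κ D b b') (gL D b) (gS κ D b') (D.c0 n + bc D.ps)
    s1 s2 s3 s4 s5 ht ?_ l1 l2 p1 p2 p3
  have hc := hC.cst
  unfold DW.cst at hc
  have e1 : gLL D b (0, 0) = D.LL 0 0 0 := by
    unfold gLL
    rw [pt_zero, G_zero, norm_zero, inner_zero_left]
    norm_num
  have e2 : gSS D b' (0, 0) = D.SS 0 0 0 := by
    unfold gSS
    rw [pt_zero, G_zero, norm_zero, inner_zero_left]
    norm_num
  have e3 : gLS κ D b b' (0, 0) = D.LS n κ 0 0 0 := by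
    unfold gLS
    rw [pt_zero, pt_zero, G_zero, norm_zero, inner_zero_left]
    norm_num
  have e4 : gL D b 0 = D.f1 0 + 2 * D.wa 0 := by
    unfold gL
    rw [pt_zero, G_zero, norm_zero]
    norm_num
  have e5 : gS κ D b' 0 = D.f1' n κ 0 + 2 * (κ⁻¹ * D.wb n 0) := by
    unfold gS
    rw [pt_zero, G_zero, norm_zero]
    norm_num
  rw [e1, e2, e3, e4, e5]
  linarith

end Pool.Agent.LPV.H11
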